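import Pool.Agent.Run7.h357.OD.Main

set_option autoImplicit false

/-!
# The dimension of finite ordered sets with a two-element autonomous set

Two points `a` and `b` of an ordered set form an autonomous set if every other point is related to
`a` as to `b`: it is below both or below none, and above both or above none. (The points `a` and `b`
may be comparable or not.)

**Theorem.** Let `P` and `Q` be ordered sets with `n ≥ 13` points and the same deck. Then they have
the same number of two-element autonomous sets, and if this number is not zero, they have the same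
order dimension.

So in a counterexample to Q1 with `n ≥ 13` neither ordered set has a two-element autonomous set.

The proof. For `j ≥ 0` let `m j` be the number of the pairs of different points which are
distinguished by exactly `j` other points. Counting such pairs in all cards gives the numbers
`(n - 2 - j) m j + (j + 1) m (j + 1)`. The solution is unique up to multiples of alternating
binomial coefficients, which exceed the number of all pairs; hence `m 0` is determined. If there is
a two-element autonomous set, the dimension is the largest dimension of a card: from linear orders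
for the ordered set without `a` one obtains linear orders for the ordered set by inserting `a` next
to `b`, on the right sides.
-/

namespace Pool.Agent.Results.MP_dbf53e_co.AutonomousPairs

/-- `L` is a linear order. -/
def IsLinear {P : Type} (L : P → P → Prop) : Prop :=
  (∀ x, L x x) ∧ (∀ x y z, L x y → L y z → L x z) ∧ (∀ x y, L x y → L y x → x = y) ∧
    (∀ x y, L x y ∨ L y x)

/-- The order dimension: the least `d` such that the order is the intersection of `d` linear
orders. -/
noncomputable def orderDim (P : Type) [PartialOrder P] : ℕ :=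
  sInf {d : ℕ | ∃ L : Fin d → P → P → Prop, (∀ i, IsLinear (L i)) ∧
    ∀ x y : P, x ≤ y ↔ ∀ i, L i x y}

/-- `P` and `Q` have the same deck: some bijection `σ` is such that `P` without `x` is isomorphic to
`Q` without `σ x` for every `x`. -/
def SameDeck (P Q : Type) [PartialOrder P] [PartialOrder Q] : Prop :=
  ∃ σ : P ≃ Q, ∀ x : P, Nonempty ({y : P // y ≠ x} ≃o {z : Q // z ≠ σ x})

/-- `a` and `b` form a two-element autonomous set. -/
def Autonomous {P : Type} [PartialOrder P] (a b : P) : Prop :=
  a ≠ b ∧ ∀ z, z ≠ a → z ≠ b → ((z ≤ a ↔ z ≤ b) ∧ (a ≤ z ↔ b ≤ z))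

/-- Two ordered sets with the same deck and at least 13 points have the same number of (ordered)
pairs `(a, b)` which form an autonomous set, and if there is one, they have the same order
dimension. -/
theorem result (P Q : Type) [PartialOrder P] [PartialOrder Q] [Fintype P]
    (hn : 13 ≤ Fintype.card P) (h : SameDeck P Q) :
    {p : P × P | Autonomous p.1 p.2}.ncard = {q : Q × Q | Autonomous q.1 q.2}.ncard ∧
      ((∃ a b : P, Autonomous a b) → orderDim P = orderDim Q) := by
  classical
  obtain ⟨σ, hσ⟩ := h
  -- the order of `Q`, carried to `P`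
  set r : P → P → Prop := fun x y => x ≤ y with hr
  set r' : P → P → Prop := fun x y => σ x ≤ σ y with hr'
  have key : ∀ i : P, ∃ π : Equiv.Perm P, π i = i ∧
      ∀ x y, x ≠ i → y ≠ i → (r' (π x) (π y) ↔ r x y) := by
    intro i
    obtain ⟨e⟩ := hσ i
    have hne : ∀ x (hx : x ≠ i), σ.symm (e ⟨x, hx⟩ : Q) ≠ i := by
      intro x hx h
      rw [Equiv.symm_apply_eq] at h
      exact (e ⟨x, hx⟩).2 h
    set g : P → P := fun x => if hx : x = i then i else σ.symm (e ⟨x, hx⟩ : Q) with hg
    have gi : g i = i := dif_pos rfl
    have gn : ∀ x (hx : x ≠ i), g x = σ.symm (e ⟨x, hx⟩ : Q) := fun x hx => dif_neg hx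
    have ginj : Function.Injective g := by
      intro x y hxy
      by_cases hx : x = i
      · by_cases hy : y = i
        · rw [hx, hy]
        · rw [hx, gi, gn y hy] at hxy
          exact (hne y hy hxy.symm).elim
      · by_cases hy : y = i
        · rw [hy, gi, gn x hx] at hxy
          exact (hne x hx hxy).elim
        · rw [gn x hx, gn y hy] at hxy
          have := e.injective (Subtype.ext (σ.symm.injective hxy))
          exact congrArg Subtype.val this
    refine ⟨Equiv.ofBijective g (Finite.injective_iff_bijective.mp ginj), gi, ?_⟩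
    intro x y hx hy
    show σ (g x) ≤ σ (g y) ↔ x ≤ y
    rw [gn x hx, gn y hy, Equiv.apply_symm_apply, Equiv.apply_symm_apply]
    exact e.map_rel_iff (a := ⟨x, hx⟩) (b := ⟨y, hy⟩)
  choose π hπ1 hπ2 using key
  have hS : Run7.h357.OD.Same r r' π := ⟨hπ1, hπ2⟩
  have hA : ∀ a b : P, Run7.h357.OD.Auto r' a b ↔ Autonomous (σ a) (σ b) := by
    intro a b
    constructor
    · rintro ⟨h1, h2⟩
      refine ⟨fun e => h1 (σ.injective e), fun z hz1 hz2 => ?_⟩
      obtain ⟨z, rfl⟩ := σ.surjective z
      exact h2 z (fun e => hz1 (by rw [e])) (fun e => hz2 (by rw [e]))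
    · rintro ⟨h1, h2⟩
      exact ⟨fun e => h1 (by rw [e]), fun z hz1 hz2 => h2 (σ z) (fun e => hz1 (σ.injective e))
        (fun e => hz2 (σ.injective e))⟩
  have hdimQ : ∀ d, (∃ L : Fin d → Q → Q → Prop, (∀ i, IsLinear (L i)) ∧
      ∀ x y : Q, x ≤ y ↔ ∀ i, L i x y) ↔ Run7.h357.OD.HasDim r' d := by
    intro d
    constructor
    · intro hd
      exact Run7.h357.OD.HasDim.pull (r := fun x y : Q => x ≤ y) hd σ σ.injective
    · intro hd
      have := Run7.h357.OD.HasDim.pull hd σ.symm σ.symm.injective
      have e : (fun x y : Q => r' (σ.symm x) (σ.symm y)) = fun x y : Q => x ≤ y := by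
        funext x y
        simp only [hr', Equiv.apply_symm_apply]
      rw [e] at this
      exact this
  constructor
  · have h0 := Run7.h357.OD.m0_eq hS hn
    have e1 : Run7.h357.OD.m r 0 = {p : P × P | Autonomous p.1 p.2}.ncard := by
      unfold Run7.h357.OD.m
      rw [← Set.ncard_coe_finset]
      congr 1
      ext p
      rw [Finset.mem_coe, Finset.mem_filter, ← Run7.h357.OD.auto_iff]
      exact ⟨fun q => q.2, fun q => ⟨Finset.mem_univ _, q⟩⟩
    have e2 : Run7.h357.OD.m r' 0 = {q : Q × Q | Autonomous q.1 q.2}.ncard := by
      unfold Run7.h357.OD.m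
      rw [← Set.ncard_coe_finset]
      refine Set.ncard_congr (fun p _ => (σ p.1, σ p.2)) ?_ ?_ ?_
      · intro p hp
        rw [Finset.mem_coe, Finset.mem_filter, ← Run7.h357.OD.auto_iff, hA] at hp
        exact hp.2
      · rintro ⟨a, b⟩ ⟨c, d⟩ _ _ e
        simp only [Prod.mk.injEq, EmbeddingLike.apply_eq_iff_eq] at e
        rw [e.1, e.2]
      · rintro ⟨a, b⟩ hab
        obtain ⟨a, rfl⟩ := σ.surjective a
        obtain ⟨b, rfl⟩ := σ.surjective b
        refine ⟨(a, b), ?_, rfl⟩
        rw [Finset.mem_coe, Finset.mem_filter, ← Run7.h357.OD.auto_iff, hA]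
        exact ⟨Finset.mem_univ _, hab⟩
    rw [← e1, ← e2, h0]
  · intro hab
    unfold orderDim
    congr 1
    ext d
    rw [Set.mem_ofPred_eq, Set.mem_ofPred_eq, hdimQ d]
    exact Run7.h357.OD.main hS (fun x => le_refl x) (fun x y h1 h2 => le_antisymm h1 h2)
      (fun x => le_refl (σ x)) (fun x y h1 h2 => σ.injective (le_antisymm h1 h2)) hn hab d

end Pool.Agent.Results.MP_dbf53e_co.AutonomousPairs
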